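import Mathlib

/-!
# Explorer-Director game: the path value is not bounded by a multiple of the distance value

For every real `k` there is a finite connected graph `G` and a vertex `v` with
`f_p(G,v) / f_d(G,v) > k`.
-/

namespace Pool.Agent.Results.MP_5904a2_co.RatioUnbounded

open SimpleGraph

/-- Moves of the distance game: from `u`, after the Explorer names `l`, the Director may move the
token to `x`. -/
def DistMove {V : Type} (G : SimpleGraph V) (u : V) (l : ℕ) (x : V) : Prop :=
  G.dist u x = l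

/-- Moves of the path variant: there is a path of length `l` from `u` to `x`. -/
def PathMove {V : Type} (G : SimpleGraph V) (u : V) (l : ℕ) (x : V) : Prop :=
  ∃ p : G.Walk u x, p.IsPath ∧ p.length = l

/-- The Director, starting at `v`, can keep the number of visited vertices at most `k` forever:
there is a family `P` of safe positions (set of visited vertices, position of the token) which
contains the initial position, consists of positions with at most `k` visited vertices and such
that after every legal call `l` of the Explorer the Director has a legal move to a position of the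
family again. -/
def DirectorHolds {V : Type} (R : V → ℕ → V → Prop) (v : V) (k : ℕ) : Prop :=
  ∃ P : Set V → V → Prop, P {v} v ∧
    ∀ S u, P S u → S.encard ≤ k ∧
      ∀ l : ℕ, 1 ≤ l → (∃ x, R u l x) → ∃ x, R u l x ∧ P (insert x S) x

/-- The value of the game: the least `k` such that the Director can keep the number of visited
vertices at most `k`. -/
noncomputable def value {V : Type} (R : V → ℕ → V → Prop) (v : V) : ℕ :=
  sInf {k | DirectorHolds R v k}

/-- The value of the distance game. -/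
noncomputable def fd {V : Type} (G : SimpleGraph V) (v : V) : ℕ := value (DistMove G) v

/-- The value of the path variant. -/
noncomputable def fp {V : Type} (G : SimpleGraph V) (v : V) : ℕ := value (PathMove G) v

/-! ### The construction -/

/-- The vertices: a hub `z`, rim vertices `c i`, blocks `b i _` of size `m+1` between `c i` and
`c (i+1)`, and pendant cliques `q i _` of size `m+3+i` at `c i`. -/
inductive Vt (m : ℕ) : Type
  | z : Vt m
  | c : ZMod m → Vt m
  | b : ZMod m → Fin (m + 1) → Vt m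
  | q : (i : ZMod m) → Fin (m + 3 + i.val) → Vt m

open Vt

/-- Adjacency. -/
def adj (m : ℕ) : Vt m → Vt m → Prop
  | z, c _ => True
  | c _, z => True
  | c i, b j _ => i = j ∨ i = j + 1
  | b j _, c i => i = j ∨ i = j + 1
  | b i a, b j a' => i = j ∧ a.val ≠ a'.val
  | c i, q j _ => i = j
  | q j _, c i => i = j
  | q i a, q j a' => i = j ∧ a.val ≠ a'.val
  | _, _ => False

/-- The graph. -/
def Gr (m : ℕ) : SimpleGraph (Vt m) where
  Adj := adj m
  symm := by
    constructor
    intro x y h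
    cases x <;> cases y <;> simp only [adj] at h ⊢
    all_goals first | exact h | exact ⟨h.1.symm, h.2.symm⟩
  loopless := by
    constructor
    intro x h
    cases x <;> simp only [adj] at h
    all_goals exact h.2 rfl

lemma adj_cb {m : ℕ} {i j : ZMod m} {a : Fin (m + 1)} (h : i = j ∨ i = j + 1) :
    (Gr m).Adj (c i) (b j a) := by
  change adj m (c i) (b j a)
  simpa only [adj] using h

lemma adj_bb {m : ℕ} {i : ZMod m} {a a' : Fin (m + 1)} (h : a ≠ a') :
    (Gr m).Adj (b i a) (b i a') := by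
  change adj m (b i a) (b i a')
  simp only [adj]
  exact ⟨trivial, fun h' => h (Fin.ext h')⟩

lemma adj_qq {m : ℕ} {i : ZMod m} {a a' : Fin (m + 3 + i.val)} (h : a ≠ a') :
    (Gr m).Adj (q i a) (q i a') := by
  change adj m (q i a) (q i a')
  simp only [adj]
  exact ⟨trivial, fun h' => h (Fin.ext h')⟩

lemma adj_cq {m : ℕ} {i : ZMod m} {a : Fin (m + 3 + i.val)} :
    (Gr m).Adj (c i) (q i a) := by
  change adj m (c i) (q i a)
  simp only [adj]

lemma adj_zc {m : ℕ} {i : ZMod m} : (Gr m).Adj z (c i) := by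
  change adj m z (c i)
  simp only [adj]

instance finV (m : ℕ) [NeZero m] : Finite (Vt m) := by
  classical
  let f : Unit ⊕ (ZMod m) ⊕ (ZMod m × Fin (m + 1)) ⊕ (Σ i : ZMod m, Fin (m + 3 + i.val)) → Vt m :=
    fun s => match s with
      | Sum.inl _ => z
      | Sum.inr (Sum.inl i) => c i
      | Sum.inr (Sum.inr (Sum.inl p)) => b p.1 p.2
      | Sum.inr (Sum.inr (Sum.inr p)) => q p.1 p.2
  have hf : Function.Surjective f := by
    intro x
    cases x with
    | z => exact ⟨Sum.inl (), rfl⟩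
    | c i => exact ⟨Sum.inr (Sum.inl i), rfl⟩
    | b i a => exact ⟨Sum.inr (Sum.inr (Sum.inl (i, a))), rfl⟩
    | q i a => exact ⟨Sum.inr (Sum.inr (Sum.inr ⟨i, a⟩)), rfl⟩
  exact Finite.of_surjective f hf

/-! ### Counting vertices -/

/-- `y` is in the pendant clique `q j`. -/
def inQ {m : ℕ} (j : ZMod m) (y : Vt m) : Prop := ∃ a, y = q j a

/-- `y` is in the block `b j`. -/
def inB {m : ℕ} (j : ZMod m) (y : Vt m) : Prop := ∃ a, y = b j a

lemma nbr_Q {m : ℕ} {j : ZMod m} {x y : Vt m} (h : (Gr m).Adj x y) (hx : inQ j x)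
    (hy : ¬ inQ j y) : y = c j := by
  obtain ⟨a, rfl⟩ := hx
  change adj m _ _ at h
  cases y with
  | z => simp [adj] at h
  | c i => simp only [adj] at h; rw [h]
  | b i a' => simp [adj] at h
  | q i a' =>
    simp only [adj] at h
    obtain ⟨rfl, _⟩ := h
    exact absurd ⟨a', rfl⟩ hy

lemma nbr_B {m : ℕ} {j : ZMod m} {x y : Vt m} (h : (Gr m).Adj x y) (hx : inB j x)
    (hy : ¬ inB j y) : y = c j ∨ y = c (j + 1) := by
  obtain ⟨a, rfl⟩ := hx
  change adj m _ _ at h
  cases y with
  | z => simp [adj] at h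
  | c i =>
    simp only [adj] at h
    rcases h with h | h
    · left; rw [h]
    · right; rw [h]
  | b i a' =>
    simp only [adj] at h
    obtain ⟨rfl, _⟩ := h
    exact absurd ⟨a', rfl⟩ hy
  | q i a' => simp [adj] at h

/-- Entering a set: along a sequence from outside the set to inside, there is a last outside
step. -/
lemma enter (p : ℕ → Prop) (k : ℕ) (h0 : ¬ p 0) (hk : p k) : ∃ s, s < k ∧ ¬ p s ∧ p (s + 1) := by
  induction k with
  | zero => exact absurd hk h0
  | succ k ih =>
    by_cases h : p k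
    · obtain ⟨s, hs, h1, h2⟩ := ih h
      exact ⟨s, by omega, h1, h2⟩
    · exact ⟨k, by omega, h, hk⟩

lemma leave (p : ℕ → Prop) (k L : ℕ) (hkL : k ≤ L) (hk : p k) (hL : ¬ p L) :
    ∃ s, k ≤ s ∧ s < L ∧ p s ∧ ¬ p (s + 1) := by
  obtain ⟨d, rfl⟩ := Nat.exists_eq_add_of_le hkL
  clear hkL
  induction d with
  | zero => exact absurd hk hL
  | succ d ih =>
    by_cases h : p (k + d)
    · exact ⟨k + d, by omega, by omega, h, hL⟩
    · obtain ⟨s, h1, h2, h3, h4⟩ := ih h
      exact ⟨s, h1, by omega, h3, h4⟩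

/-- A path, presented as a function. -/
structure PathFn (m : ℕ) (L : ℕ) (f : ℕ → Vt m) : Prop where
  inj : ∀ s t, s ≤ L → t ≤ L → f s = f t → s = t
  ad : ∀ s, s < L → (Gr m).Adj (f s) (f (s + 1))

lemma F1 {m L : ℕ} {f : ℕ → Vt m} (hf : PathFn m L f) {i j : ZMod m} (hij : i ≠ j)
    (h0 : inQ i (f 0)) {k : ℕ} (hk : k ≤ L) (hkj : inQ j (f k)) : inQ j (f L) := by
  by_contra hL
  have h0' : ¬ inQ j (f 0) := by
    rintro ⟨a, ha⟩
    obtain ⟨a', ha'⟩ := h0
    rw [ha'] at ha
    injection ha with h1 _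
    exact hij h1
  obtain ⟨s, hs, hs1, hs2⟩ := enter (fun n => inQ j (f n)) k h0' hkj
  obtain ⟨t, ht, htL, ht1, ht2⟩ := leave (fun n => inQ j (f n)) k L hk hkj hL
  have e1 : f s = c j := nbr_Q ((hf.ad s (by omega)).symm) hs2 hs1
  have e2 : f (t + 1) = c j := nbr_Q (hf.ad t htL) ht1 ht2
  have := hf.inj s (t + 1) (by omega) (by omega) (e1.trans e2.symm)
  omega

/-- A visited block whose vertices are neither the start nor the end uses, next to it on the
path, both `c j` and `c (j+1)`. -/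
lemma block_use {m L : ℕ} {f : ℕ → Vt m} (hf : PathFn m L f) {j : ZMod m} (h0 : ¬ inB j (f 0))
    (hL : ¬ inB j (f L)) {k : ℕ} (hk : k ≤ L) (hkj : inB j (f k)) :
    ∀ d, (d = j ∨ d = j + 1) → ∃ s, s ≤ L ∧ f s = c d ∧
      ((s + 1 ≤ L ∧ inB j (f (s + 1))) ∨ (1 ≤ s ∧ inB j (f (s - 1)))) := by
  obtain ⟨s, hs, hs1, hs2⟩ := enter (fun n => inB j (f n)) k h0 hkj
  obtain ⟨t, ht, htL, ht1, ht2⟩ := leave (fun n => inB j (f n)) k L hk hkj hL
  have e1 := nbr_B ((hf.ad s (by omega)).symm) hs2 hs1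
  have e2 := nbr_B (hf.ad t htL) ht1 ht2
  have key1 : ∀ d, f s = c d → ∃ s, s ≤ L ∧ f s = c d ∧
      ((s + 1 ≤ L ∧ inB j (f (s + 1))) ∨ (1 ≤ s ∧ inB j (f (s - 1)))) :=
    fun d hd => ⟨s, by omega, hd, Or.inl ⟨by omega, hs2⟩⟩
  have key2 : ∀ d, f (t + 1) = c d → ∃ s, s ≤ L ∧ f s = c d ∧
      ((s + 1 ≤ L ∧ inB j (f (s + 1))) ∨ (1 ≤ s ∧ inB j (f (s - 1)))) :=
    fun d hd => ⟨t + 1, by omega, hd, Or.inr ⟨by omega, by simpa using ht1⟩⟩
  have hne : f s ≠ f (t + 1) := by
    intro h
    have := hf.inj s (t + 1) (by omega) (by omega) h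
    omega
  rintro d (rfl | rfl)
  · rcases e1 with e1 | e1
    · exact key1 _ e1
    · rcases e2 with e2 | e2
      · exact key2 _ e2
      · exact absurd (e1.trans e2.symm) hne
  · rcases e1 with e1 | e1
    · rcases e2 with e2 | e2
      · exact absurd (e1.trans e2.symm) hne
      · exact key2 _ e2
    · exact key1 _ e1

lemma notB_of_Q {m : ℕ} {i j : ZMod m} {x : Vt m} (h : inQ i x) : ¬ inB j x := by
  obtain ⟨a, rfl⟩ := h
  rintro ⟨a', h'⟩
  cases h'

lemma B_unique {m : ℕ} {i j : ZMod m} {x : Vt m} (h : inB i x) (h' : inB j x) : i = j := by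
  obtain ⟨a, rfl⟩ := h
  obtain ⟨a', h'⟩ := h'
  injection h'

lemma Q_unique {m : ℕ} {i j : ZMod m} {x : Vt m} (h : inQ i x) (h' : inQ j x) : i = j := by
  obtain ⟨a, rfl⟩ := h
  obtain ⟨a', h'⟩ := h'
  injection h'

/-- Start side. -/
lemma F2a {m L : ℕ} {f : ℕ → Vt m} (hf : PathFn m L f) {i j : ZMod m} (hij : i ≠ j)
    (h0 : inQ i (f 0)) (hL : inQ j (f L)) {r1 r2 : ZMod m} (hr : r1 ≠ r2)
    (h1 : i = r1 ∨ i = r1 + 1) (h2 : i = r2 ∨ i = r2 + 1)
    {k1 k2 : ℕ} (hk1 : k1 ≤ L) (hk2 : k2 ≤ L) (hb1 : inB r1 (f k1)) (hb2 : inB r2 (f k2)) :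
    False := by
  have hL' : ¬ inQ i (f L) := fun h => hij (Q_unique h hL)
  obtain ⟨t, ht, htL, ht1, ht2⟩ := leave (fun n => inQ i (f n)) 0 L (by omega) h0 hL'
  have e := nbr_Q (hf.ad t htL) ht1 ht2
  have aux : ∀ r : ZMod m, (i = r ∨ i = r + 1) → ∀ k ≤ L, inB r (f k) →
      inB r (f (t + 2)) := by
    intro r hr k hk hb
    obtain ⟨s, hs, hs1, hs2⟩ := block_use hf (notB_of_Q h0) (notB_of_Q hL) hk hb i hr
    have : s = t + 1 := hf.inj s (t + 1) hs (by omega) (hs1.trans e.symm)
    subst this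
    rcases hs2 with ⟨_, hs2⟩ | ⟨_, hs2⟩
    · exact hs2
    · exact absurd hs2 (notB_of_Q (i := i) (by simpa using ht1))
  exact hr (B_unique (aux r1 h1 k1 hk1 hb1) (aux r2 h2 k2 hk2 hb2))

/-- End side. -/
lemma F2b {m L : ℕ} {f : ℕ → Vt m} (hf : PathFn m L f) {i j : ZMod m} (hij : i ≠ j)
    (h0 : inQ i (f 0)) (hL : inQ j (f L)) {r1 r2 : ZMod m} (hr : r1 ≠ r2)
    (h1 : j = r1 ∨ j = r1 + 1) (h2 : j = r2 ∨ j = r2 + 1)
    {k1 k2 : ℕ} (hk1 : k1 ≤ L) (hk2 : k2 ≤ L) (hb1 : inB r1 (f k1)) (hb2 : inB r2 (f k2)) :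
    False := by
  have h0' : ¬ inQ j (f 0) := fun h => hij (Q_unique h0 h)
  obtain ⟨t, ht, ht1, ht2⟩ := enter (fun n => inQ j (f n)) L h0' hL
  have e := nbr_Q ((hf.ad t ht).symm) ht2 ht1
  have aux : ∀ r : ZMod m, (j = r ∨ j = r + 1) → ∀ k ≤ L, inB r (f k) →
      inB r (f (t - 1)) := by
    intro r hr k hk hb
    obtain ⟨s, hs, hs1, hs2⟩ := block_use hf (notB_of_Q h0) (notB_of_Q hL) hk hb j hr
    have : s = t := hf.inj s t hs (by omega) (hs1.trans e.symm)
    subst this
    rcases hs2 with ⟨_, hs2⟩ | ⟨_, hs2⟩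
    · exact absurd hs2 (notB_of_Q (i := j) ht2)
    · exact hs2
  exact hr (B_unique (aux r1 h1 k1 hk1 hb1) (aux r2 h2 k2 hk2 hb2))

lemma count {m L : ℕ} [NeZero m] {f : ℕ → Vt m} (hf : PathFn m L f) (T J : Finset (ZMod m))
    (hT : ∀ k ≤ L, ∀ j, inB j (f k) → j ∈ T) (hJ : ∀ k ≤ L, ∀ j, inQ j (f k) → j ∈ J) :
    L + 1 ≤ 1 + m + T.card * (m + 1) + ∑ j ∈ J, (m + 3 + j.val) := by
  classical
  let U1 : Finset (Vt m) := {z}
  let U2 : Finset (Vt m) := Finset.univ.image c
  let U3 : Finset (Vt m) := T.biUnion (fun j => Finset.univ.image (b j))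
  let U4 : Finset (Vt m) := J.biUnion (fun j => Finset.univ.image (q j))
  have c1 : U1.card = 1 := by simp [U1]
  have c2 : U2.card ≤ m := by
    refine le_trans Finset.card_image_le ?_
    rw [Finset.card_univ, ZMod.card]
  have c3 : U3.card ≤ T.card * (m + 1) := by
    refine le_trans Finset.card_biUnion_le ?_
    refine le_trans (Finset.sum_le_card_nsmul T _ (m + 1) ?_) (by simp)
    intro j _
    refine le_trans Finset.card_image_le ?_
    simp
  have c4 : U4.card ≤ ∑ j ∈ J, (m + 3 + j.val) := by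
    refine le_trans Finset.card_biUnion_le ?_
    refine Finset.sum_le_sum ?_
    intro j _
    refine le_trans Finset.card_image_le ?_
    simp
  have hsub : (Finset.range (L + 1)).image f ⊆ U1 ∪ U2 ∪ U3 ∪ U4 := by
    intro y hy
    rw [Finset.mem_image] at hy
    obtain ⟨k, hk, rfl⟩ := hy
    have hk' : k ≤ L := by
      have := Finset.mem_range.1 hk
      omega
    rw [Finset.mem_union, Finset.mem_union, Finset.mem_union]
    cases hy : f k with
    | z => exact Or.inl (Or.inl (Or.inl (by simp [U1])))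
    | c i => exact Or.inl (Or.inl (Or.inr (Finset.mem_image_of_mem _ (Finset.mem_univ i))))
    | b i a =>
      refine Or.inl (Or.inr (Finset.mem_biUnion.2 ⟨i, hT k hk' i ⟨a, hy⟩, ?_⟩))
      exact Finset.mem_image_of_mem _ (Finset.mem_univ a)
    | q i a =>
      refine Or.inr (Finset.mem_biUnion.2 ⟨i, hJ k hk' i ⟨a, hy⟩, ?_⟩)
      exact Finset.mem_image_of_mem _ (Finset.mem_univ a)
  have hcard : ((Finset.range (L + 1)).image f).card = L + 1 := by
    rw [Finset.card_image_of_injOn, Finset.card_range]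
    intro s hs t ht hst
    have h1 := Finset.mem_range.1 (Finset.mem_coe.1 hs)
    have h2 := Finset.mem_range.1 (Finset.mem_coe.1 ht)
    exact hf.inj s t (by omega) (by omega) hst
  have h5 := Finset.card_le_card hsub
  have h6 := Finset.card_union_le (U1 ∪ U2 ∪ U3) U4
  have h7 := Finset.card_union_le (U1 ∪ U2) U3
  have h8 := Finset.card_union_le U1 U2
  omega

lemma sub_one_ne {m : ℕ} (hm : 2 ≤ m) (i : ZMod m) : i - 1 ≠ i := by
  intro h
  have h1 : (1 : ZMod m) = 0 := by
    have : i - (i - 1) = i - i := by rw [h]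
    simpa using this
  have : Fact (1 < m) := ⟨by omega⟩
  exact one_ne_zero h1

/-- The main point: a path with this number of vertices which starts in `Q_i` ends in
`Q_{i+1}`. -/
lemma path_end {m L : ℕ} [NeZero m] (hm : 5 ≤ m) {f : ℕ → Vt m} (hf : PathFn m L f) (i : ℕ)
    (hi1 : 1 ≤ i) (hi2 : i + 2 ≤ m) (h0 : inQ (i : ZMod m) (f 0))
    (hL : L + 1 = (m + 3 + i) + (m + 3 + (i + 1)) + m + (m - 1) * (m + 1)) :
    inQ ((i + 1 : ℕ) : ZMod m) (f L) := by
  classical
  have vi : (i : ZMod m).val = i := ZMod.val_natCast_of_lt (by omega)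
  have hmm : (m - 1) * (m + 1) + (m + 1) = m * (m + 1) := by
    obtain ⟨k, rfl⟩ : ∃ k, m = k + 1 := ⟨m - 1, by omega⟩
    simp; ring
  have hmm2 : (m - 2) * (m + 1) + (m + 1) = (m - 1) * (m + 1) := by
    obtain ⟨k, rfl⟩ : ∃ k, m = k + 2 := ⟨m - 2, by omega⟩
    simp; ring
  let T : Finset (ZMod m) := Finset.univ.filter (fun j => ∃ k ≤ L, inB j (f k))
  have hT : ∀ k ≤ L, ∀ j, inB j (f k) → j ∈ T := fun k hk j hj =>
    Finset.mem_filter.2 ⟨Finset.mem_univ _, k, hk, hj⟩
  by_cases h : ∃ j, j ≠ (i : ZMod m) ∧ inQ j (f L)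
  · obtain ⟨j, hji, hj⟩ := h
    by_cases hj1 : j = ((i + 1 : ℕ) : ZMod m)
    · rw [hj1] at hj; exact hj
    exfalso
    have hJ : ∀ k ≤ L, ∀ j', inQ j' (f k) → j' ∈ ({(i : ZMod m), j} : Finset (ZMod m)) := by
      intro k hk j' hj'
      by_cases e : j' = (i : ZMod m)
      · rw [e]; simp
      · have := F1 hf (Ne.symm e) h0 hk hj'
        rw [Q_unique this hj]; simp
    have hc := count hf T _ hT hJ
    rw [Finset.sum_pair (Ne.symm hji), vi] at hc
    -- missing block at the start
    have m1 : ∃ r1, (r1 = (i : ZMod m) ∨ r1 = (i : ZMod m) - 1) ∧ r1 ∉ T := by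
      by_contra hcon
      push Not at hcon
      obtain ⟨_, k1, hk1, hb1⟩ := Finset.mem_filter.1 (hcon _ (Or.inl rfl))
      obtain ⟨_, k2, hk2, hb2⟩ := Finset.mem_filter.1 (hcon _ (Or.inr rfl))
      exact F2a hf (Ne.symm hji) h0 hj (Ne.symm (sub_one_ne (by omega) (i : ZMod m)))
        (Or.inl rfl) (Or.inr (by ring)) hk1 hk2 hb1 hb2
    have m2 : ∃ r2, (r2 = j ∨ r2 = j - 1) ∧ r2 ∉ T := by
      by_contra hcon
      push Not at hcon
      obtain ⟨_, k1, hk1, hb1⟩ := Finset.mem_filter.1 (hcon _ (Or.inl rfl))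
      obtain ⟨_, k2, hk2, hb2⟩ := Finset.mem_filter.1 (hcon _ (Or.inr rfl))
      exact F2b hf (Ne.symm hji) h0 hj (Ne.symm (sub_one_ne (by omega) j))
        (Or.inl rfl) (Or.inr (by ring)) hk1 hk2 hb1 hb2
    obtain ⟨r1, hr1, hr1T⟩ := m1
    obtain ⟨r2, hr2, hr2T⟩ := m2
    have hjval : j.val < m := ZMod.val_lt j
    by_cases hj2 : j = (i : ZMod m) - 1
    · -- T has at most m - 1 elements
      have hTc : T.card ≤ m - 1 := by
        have h3 : T ⊆ Finset.univ.erase r1 := by
          intro t ht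
          exact Finset.mem_erase.2 ⟨fun h => hr1T (h ▸ ht), Finset.mem_univ _⟩
        have h4 := Finset.card_le_card h3
        rw [Finset.card_erase_of_mem (Finset.mem_univ _), Finset.card_univ, ZMod.card] at h4
        exact h4
      have vj : j.val = i - 1 := by
        have : j = ((i - 1 : ℕ) : ZMod m) := by
          rw [hj2, Nat.cast_sub hi1]; simp
        rw [this]
        exact ZMod.val_natCast_of_lt (by omega)
      rw [vj] at hc
      have h5 : T.card * (m + 1) ≤ (m - 1) * (m + 1) := Nat.mul_le_mul_right _ hTc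
      omega
    · have hr12 : r1 ≠ r2 := by
        rcases hr1 with rfl | rfl <;> rcases hr2 with rfl | rfl
        · exact Ne.symm hji
        · intro h
          apply hj1
          have : j = (i : ZMod m) + 1 := by rw [h]; ring
          rw [this]; push_cast; rfl
        · intro h
          exact hj2 h.symm
        · intro h
          exact hji (sub_left_injective h).symm
      have hTc : T.card ≤ m - 2 := by
        have h3 : T ⊆ (Finset.univ.erase r1).erase r2 := by
          intro t ht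
          exact Finset.mem_erase.2 ⟨fun h => hr2T (h ▸ ht),
            Finset.mem_erase.2 ⟨fun h => hr1T (h ▸ ht), Finset.mem_univ _⟩⟩
        have h4 := Finset.card_le_card h3
        rw [Finset.card_erase_of_mem (Finset.mem_erase.2 ⟨Ne.symm hr12, Finset.mem_univ _⟩),
          Finset.card_erase_of_mem (Finset.mem_univ _), Finset.card_univ, ZMod.card] at h4
        omega
      have h5 : T.card * (m + 1) ≤ (m - 2) * (m + 1) := Nat.mul_le_mul_right _ hTc
      omega
  · exfalso
    push Not at h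
    have hJ : ∀ k ≤ L, ∀ j', inQ j' (f k) → j' ∈ ({(i : ZMod m)} : Finset (ZMod m)) := by
      intro k hk j' hj'
      by_cases e : j' = (i : ZMod m)
      · rw [e]; simp
      · exact absurd (F1 hf (Ne.symm e) h0 hk hj') (h j' e)
    have hc := count hf T _ hT hJ
    rw [Finset.sum_singleton, vi] at hc
    have hTc : T.card ≤ m := by
      have h4 := Finset.card_le_univ T
      rw [ZMod.card] at h4
      exact h4
    have h5 : T.card * (m + 1) ≤ m * (m + 1) := Nat.mul_le_mul_right _ hTc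
    omega

/-! ### Existence of the path -/

/-- There is a path with `n` vertices from `u` to `x` inside `S`. -/
def PathOn {m : ℕ} (S : Set (Vt m)) (n : ℕ) (u x : Vt m) : Prop :=
  ∃ p : (Gr m).Walk u x, p.IsPath ∧ p.length + 1 = n ∧ ∀ y ∈ p.support, y ∈ S

lemma PathOn.mono {m : ℕ} {S S' : Set (Vt m)} {n : ℕ} {u x : Vt m} (h : PathOn S n u x)
    (hS : S ⊆ S') : PathOn S' n u x := by
  obtain ⟨p, h1, h2, h3⟩ := h
  exact ⟨p, h1, h2, fun y hy => hS (h3 y hy)⟩

lemma PathOn.single {m : ℕ} (u : Vt m) : PathOn {u} 1 u u :=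
  ⟨Walk.nil, by simp, by simp, by simp⟩

lemma PathOn.join {m : ℕ} {S S' : Set (Vt m)} {n n' : ℕ} {u x y w : Vt m}
    (h : PathOn S n u x) (ha : (Gr m).Adj x y) (h' : PathOn S' n' y w) (hd : Disjoint S S') :
    PathOn (S ∪ S') (n + n') u w := by
  obtain ⟨p, h1, h2, h3⟩ := h
  obtain ⟨p', h1', h2', h3'⟩ := h'
  have hsupp : (p.append (Walk.cons ha p')).support = p.support ++ p'.support := by
    rw [Walk.support_append, Walk.support_cons, List.tail_cons]
  refine ⟨p.append (Walk.cons ha p'), ?_, ?_, ?_⟩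
  · rw [Walk.isPath_def, hsupp, List.nodup_append]
    refine ⟨h1.support_nodup, h1'.support_nodup, ?_⟩
    intro a ha b hb hab
    subst hab
    exact Set.disjoint_left.1 hd (h3 a ha) (h3' a hb)
  · rw [Walk.length_append, Walk.length_cons]
    omega
  · intro v hv
    rw [hsupp, List.mem_append] at hv
    rcases hv with hv | hv
    · exact Or.inl (h3 v hv)
    · exact Or.inr (h3' v hv)

lemma clique0 {m : ℕ} (N : ℕ) (g : Fin (N + 1) → Vt m) (hg : Function.Injective g)
    (ha : ∀ a a', a ≠ a' → (Gr m).Adj (g a) (g a')) :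
    PathOn (Set.range g) (N + 1) (g 0) (g (Fin.last N)) := by
  induction N with
  | zero =>
    exact (PathOn.single (g 0)).mono (by
      intro y hy
      rw [Set.mem_singleton_iff] at hy
      exact ⟨0, hy.symm⟩)
  | succ N ih =>
    have h1 := ih (g ∘ Fin.castSucc) (hg.comp (Fin.castSucc_injective _))
      (fun a a' h => ha _ _ (fun h' => h (Fin.castSucc_injective _ h')))
    have h2 := h1.join (y := g (Fin.last (N + 1)))
      (ha _ _ (fun h' => by
        have := congrArg Fin.val h'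
        simp at this))
      (PathOn.single (g (Fin.last (N + 1)))) (by
        rw [Set.disjoint_left]
        rintro y ⟨a, rfl⟩ hy
        rw [Set.mem_singleton_iff] at hy
        have h3 := congrArg Fin.val (hg hy)
        have h4 := a.isLt
        simp at h3
        omega)
    refine h2.mono ?_
    rintro y (⟨a, rfl⟩ | hy)
    · exact ⟨_, rfl⟩
    · rw [Set.mem_singleton_iff] at hy
      exact ⟨_, hy.symm⟩

lemma clique {m : ℕ} (N : ℕ) (g : Fin N → Vt m) (hg : Function.Injective g)
    (ha : ∀ a a', a ≠ a' → (Gr m).Adj (g a) (g a')) (a : Fin N) :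
    ∃ a', PathOn (Set.range g) N (g a) (g a') := by
  cases N with
  | zero => exact a.elim0
  | succ N =>
    have h := clique0 N (g ∘ Equiv.swap 0 a) (hg.comp (Equiv.injective _))
      (fun x y hxy => ha _ _ (fun h' => hxy ((Equiv.swap 0 a).injective h')))
    refine ⟨Equiv.swap 0 a (Fin.last N), ?_⟩
    have h0 : (g ∘ Equiv.swap 0 a) 0 = g a := by simp
    rw [h0] at h
    refine h.mono ?_
    rintro y ⟨t, rfl⟩
    exact ⟨_, rfl⟩

lemma cliqueB {m : ℕ} (j : ZMod m) (a : Fin (m + 1)) :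
    ∃ a', PathOn (Set.range (b j)) (m + 1) (b j a) (b j a') := by
  apply clique
  · intro x y h
    injection h
  · intro x y h
    exact adj_bb h

lemma cliqueQ {m : ℕ} (j : ZMod m) (a : Fin (m + 3 + j.val)) :
    ∃ a', PathOn (Set.range (q j)) (m + 3 + j.val) (q j a) (q j a') := by
  apply clique
  · intro x y h
    injection h
  · intro x y h
    exact adj_qq h

lemma cast_ne {m : ℕ} {s r : ℕ} (hs : s < m) (hr : r < m) (h : s ≠ r) :
    (s : ZMod m) ≠ (r : ZMod m) := by
  intro h'
  have := congrArg ZMod.val h'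
  rw [ZMod.val_natCast_of_lt hs, ZMod.val_natCast_of_lt hr] at this
  exact h this

/-- The vertices of the chain from `c i` backwards to `c (i - s)`. -/
def chainSet {m : ℕ} (i : ZMod m) (s : ℕ) : Set (Vt m) :=
  {y | (∃ r : ℕ, r ≤ s ∧ y = c (i - (r : ZMod m))) ∨
    (∃ r : ℕ, r < s ∧ ∃ a, y = b (i - (r : ZMod m) - 1) a)}

lemma chain {m : ℕ} (i : ZMod m) (s : ℕ) (hs : s < m) :
    PathOn (chainSet i s) (1 + s * (m + 2)) (c i) (c (i - (s : ZMod m))) := by
  induction s with
  | zero =>
    have h : (i - ((0 : ℕ) : ZMod m)) = i := by simp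
    rw [h, Nat.zero_mul]
    refine (PathOn.single (c i)).mono ?_
    intro y hy
    rw [Set.mem_singleton_iff] at hy
    exact Or.inl ⟨0, le_refl _, by rw [h]; exact hy⟩
  | succ s ih =>
    have h1 := ih (by omega)
    obtain ⟨a', h2⟩ := cliqueB (i - (s : ZMod m) - 1) 0
    have h3 := h1.join (y := b (i - (s : ZMod m) - 1) 0) (adj_cb (Or.inr (by ring))) h2 (by
        rw [Set.disjoint_left]
        rintro y hy ⟨a, rfl⟩
        rcases hy with ⟨r, _, h⟩ | ⟨r, hr, a'', h⟩
        · cases h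
        · injection h with h' _
          have h4 : (s : ZMod m) = (r : ZMod m) := by
            have : i - (i - (s : ZMod m) - 1) = i - (i - (r : ZMod m) - 1) := by rw [h']
            have e1 : i - (i - (s : ZMod m) - 1) = (s : ZMod m) + 1 := by ring
            have e2 : i - (i - (r : ZMod m) - 1) = (r : ZMod m) + 1 := by ring
            rw [e1, e2] at this
            exact add_right_cancel this
          exact cast_ne (by omega) (by omega) (by omega) h4)
    have h5 := h3.join (y := c (i - (s : ZMod m) - 1)) (adj_cb (Or.inl rfl)).symm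
      (PathOn.single _) (by
        rw [Set.disjoint_left]
        rintro y hy hy2
        rw [Set.mem_singleton_iff] at hy2
        subst hy2
        rcases hy with (⟨r, hr, h⟩ | ⟨r, hr, a'', h⟩) | ⟨a, h⟩
        · injection h with h'
          have h4 : ((s + 1 : ℕ) : ZMod m) = (r : ZMod m) := by
            have : i - (i - (s : ZMod m) - 1) = i - (i - (r : ZMod m)) := by rw [h']
            have e1 : i - (i - (s : ZMod m) - 1) = (s : ZMod m) + 1 := by ring
            have e2 : i - (i - (r : ZMod m)) = (r : ZMod m) := by ring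
            rw [e1, e2] at this
            push_cast
            exact this
          exact cast_ne (by omega) (by omega) (by omega) h4
        · cases h
        · cases h)
    have e : i - ((s + 1 : ℕ) : ZMod m) = i - (s : ZMod m) - 1 := by push_cast; ring
    rw [e]
    have e2 : 1 + (s + 1) * (m + 2) = 1 + s * (m + 2) + (m + 1) + 1 := by ring
    rw [e2]
    refine h5.mono ?_
    rintro y ((hy | hy) | hy)
    · rcases hy with ⟨r, hr, h⟩ | ⟨r, hr, a'', h⟩
      · exact Or.inl ⟨r, by omega, h⟩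
      · exact Or.inr ⟨r, by omega, a'', h⟩
    · obtain ⟨a, rfl⟩ := hy
      exact Or.inr ⟨s, by omega, a, rfl⟩
    · rw [Set.mem_singleton_iff] at hy
      exact Or.inl ⟨s + 1, le_refl _, by rw [e]; exact hy⟩

lemma path_exists {m : ℕ} [NeZero m] (hm : 5 ≤ m) (i : ℕ) (hi1 : 1 ≤ i) (hi2 : i + 2 ≤ m)
    {u : Vt m} (hu : inQ (i : ZMod m) u) :
    ∃ x, PathOn Set.univ ((m + 3 + i) + (m + 3 + (i + 1)) + m + (m - 1) * (m + 1)) u x := by
  obtain ⟨a, rfl⟩ := hu
  have vi : (i : ZMod m).val = i := ZMod.val_natCast_of_lt (by omega)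
  have vi1 : ((i + 1 : ℕ) : ZMod m).val = i + 1 := ZMod.val_natCast_of_lt (by omega)
  obtain ⟨a', h1⟩ := cliqueQ (i : ZMod m) a
  have h2 := chain (i : ZMod m) (m - 1) (by omega)
  have e : (i : ZMod m) - ((m - 1 : ℕ) : ZMod m) = ((i + 1 : ℕ) : ZMod m) := by
    rw [Nat.cast_sub (by omega)]
    simp
  rw [e] at h2
  obtain ⟨a'', h3⟩ := cliqueQ ((i + 1 : ℕ) : ZMod m) ⟨0, by omega⟩
  have h4 := h1.join adj_cq.symm h2 (by
      rw [Set.disjoint_left]
      rintro y ⟨t, rfl⟩ hy
      rcases hy with ⟨r, _, h⟩ | ⟨r, hr, a'', h⟩ <;> cases h)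
  have h5 := h4.join adj_cq h3 (by
      rw [Set.disjoint_left]
      rintro y hy ⟨t, rfl⟩
      rcases hy with ⟨t', h⟩ | ⟨r, _, h⟩ | ⟨r, hr, a'', h⟩
      · injection h with h' _
        exact cast_ne (by omega) (by omega) (by omega) h'
      · cases h
      · cases h)
  refine ⟨q ((i + 1 : ℕ) : ZMod m) a'', ?_⟩
  have e3 : (m + 3 + i) + (m + 3 + (i + 1)) + m + (m - 1) * (m + 1) =
      m + 3 + (i : ZMod m).val + (1 + (m - 1) * (m + 2)) +
        (m + 3 + ((i + 1 : ℕ) : ZMod m).val) := by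
    rw [vi, vi1]
    obtain ⟨k, rfl⟩ : ∃ k, m = k + 1 := ⟨m - 1, by omega⟩
    simp; ring
  rw [e3]
  exact h5.mono (Set.subset_univ _)

/-! ### The path game -/

lemma getVert_pathFn {m L : ℕ} {u x : Vt m} (p : (Gr m).Walk u x) (hp : p.IsPath)
    (hL : p.length = L) : PathFn m L p.getVert where
  inj := by
    intro s t hs ht hst
    exact hp.getVert_injOn (by simp only [Set.mem_ofPred_eq]; omega)
      (by simp only [Set.mem_ofPred_eq]; omega) hst
  ad := by
    intro s hs
    exact p.adj_getVert_succ (by omega)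

lemma path_step {m : ℕ} [NeZero m] (hm : 5 ≤ m) (i : ℕ) (hi1 : 1 ≤ i) (hi2 : i + 2 ≤ m)
    {u : Vt m} (hu : inQ (i : ZMod m) u) :
    ∃ l : ℕ, 1 ≤ l ∧ (∃ x, PathMove (Gr m) u l x) ∧
      ∀ x, PathMove (Gr m) u l x → inQ ((i + 1 : ℕ) : ZMod m) x := by
  obtain ⟨x, p, hp, hpl, _⟩ := path_exists hm i hi1 hi2 hu
  refine ⟨p.length, by omega, ⟨x, p, hp, rfl⟩, ?_⟩
  rintro y ⟨p', hp', hl⟩
  have h := path_end hm (getVert_pathFn p' hp' hl) i hi1 hi2
    (by rw [Walk.getVert_zero]; exact hu) hpl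
  rw [← hl, Walk.getVert_length] at h
  exact h

lemma path_lower {m k : ℕ} [NeZero m] (hm : 5 ≤ m) {v : Vt m} (hv : inQ ((1 : ℕ) : ZMod m) v)
    (h : DirectorHolds (PathMove (Gr m)) v k) : m - 1 ≤ k := by
  classical
  obtain ⟨P, hP0, hP⟩ := h
  have key : ∀ i : ℕ, 1 ≤ i → i + 1 ≤ m → ∃ S u, P S u ∧ inQ (i : ZMod m) u ∧
      ∀ j : ℕ, 1 ≤ j → j ≤ i → ∃ y ∈ S, inQ (j : ZMod m) y := by
    intro i hi
    induction i, hi using Nat.le_induction with
    | base =>
      intro _
      refine ⟨{v}, v, hP0, hv, ?_⟩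
      intro j hj1 hj2
      have : j = 1 := by omega
      subst this
      exact ⟨v, rfl, hv⟩
    | succ i hi ih =>
      intro hi2
      obtain ⟨S, u, hS, hu, hy⟩ := ih (by omega)
      obtain ⟨l, hl, hex, hall⟩ := path_step hm i hi (by omega) hu
      obtain ⟨x, hx, hPx⟩ := (hP S u hS).2 l hl hex
      refine ⟨insert x S, x, hPx, hall x hx, ?_⟩
      intro j hj1 hj2
      by_cases hj : j = i + 1
      · subst hj
        exact ⟨x, Set.mem_insert _ _, hall x hx⟩
      · obtain ⟨y, hyS, hyj⟩ := hy j hj1 (by omega)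
        exact ⟨y, Set.mem_insert_of_mem _ hyS, hyj⟩
  obtain ⟨S, u, hS, _, hy⟩ := key (m - 1) (by omega) (by omega)
  have hcard := (hP S u hS).1
  have hch : ∀ j : Fin (m - 1), ∃ y ∈ S, inQ ((j.val + 1 : ℕ) : ZMod m) y := by
    intro j
    exact hy (j.val + 1) (by omega) (by have := j.isLt; omega)
  choose y hyS hyQ using hch
  have hinj : Function.Injective y := by
    intro j j' hjj
    have h1 := hyQ j
    rw [hjj] at h1
    have h2 := Q_unique h1 (hyQ j')
    by_contra hne
    have h3 : j.val ≠ j'.val := fun h => hne (Fin.ext h)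
    have := j.isLt
    have := j'.isLt
    exact cast_ne (by omega) (by omega) (by omega) h2
  have hsub : ((Finset.univ.image y : Finset (Vt m)) : Set (Vt m)) ⊆ S := by
    intro t ht
    rw [Finset.mem_coe, Finset.mem_image] at ht
    obtain ⟨j, _, rfl⟩ := ht
    exact hyS j
  have h1 := Set.encard_le_encard hsub
  rw [Set.encard_coe_eq_coe_finsetCard, Finset.card_image_of_injective _ hinj,
    Finset.card_univ, Fintype.card_fin] at h1
  have h2 := h1.trans hcard
  exact_mod_cast h2

lemma holds_mem {V : Type} [Finite V] (R : V → ℕ → V → Prop) (v : V) :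
    DirectorHolds R v (value R v) := by
  have hne : {k | DirectorHolds R v k}.Nonempty := by
    refine ⟨Nat.card V, fun _ _ => True, trivial, ?_⟩
    intro S u _
    refine ⟨?_, ?_⟩
    · have h1 := Set.encard_le_encard (Set.subset_univ S)
      rw [← (Set.finite_univ (α := V)).cast_ncard_eq, Set.ncard_univ] at h1
      exact h1
    · rintro l _ ⟨x, hx⟩
      exact ⟨x, hx, trivial⟩
  exact Nat.sInf_mem hne

/-! ### The distance game -/

/-- The five vertices between which the Director moves. -/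
def W (m : ℕ) [NeZero m] (t : ℕ) : Vt m :=
  match t with
  | 0 => q ((1 : ℕ) : ZMod m) ⟨0, by omega⟩
  | 1 => c ((1 : ℕ) : ZMod m)
  | 2 => z
  | 3 => c ((2 : ℕ) : ZMod m)
  | _ => q ((2 : ℕ) : ZMod m) ⟨0, by omega⟩

/-- A 1-Lipschitz function. -/
noncomputable def ht (m : ℕ) : Vt m → ℤ := by
  classical
  exact fun x => match x with
    | z => 2
    | c i => if i = ((1 : ℕ) : ZMod m) then 1 else if i = ((2 : ℕ) : ZMod m) then 3 else 2
    | b _ _ => 2
    | q i _ => if i = ((1 : ℕ) : ZMod m) then 0 else if i = ((2 : ℕ) : ZMod m) then 4 else 2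

lemma ht_adj {m : ℕ} {x y : Vt m} (h : (Gr m).Adj x y) : |ht m x - ht m y| ≤ 1 := by
  classical
  change adj m x y at h
  cases x <;> cases y <;> simp only [adj] at h
  all_goals simp only [ht]
  all_goals first
    | (split_ifs <;> norm_num; done)
    | (subst h; split_ifs <;> norm_num; done)
    | (obtain ⟨rfl, _⟩ := h; simp; done)

lemma ht_walk {m : ℕ} {x y : Vt m} (p : (Gr m).Walk x y) : |ht m x - ht m y| ≤ p.length := by
  induction p with
  | nil => simp
  | cons h p ih =>
    rename_i u v w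
    have h1 := ht_adj h
    have h2 := abs_sub_le (ht m u) (ht m v) (ht m w)
    rw [Walk.length_cons]
    push_cast
    omega

lemma reach {m : ℕ} (x : Vt m) : (Gr m).Reachable z x ∧ (Gr m).dist z x ≤ 2 := by
  have hc : ∀ i : ZMod m, ∀ y, (Gr m).Adj (c i) y → (Gr m).Reachable z y ∧
      (Gr m).dist z y ≤ 2 := by
    intro i y h
    let p : (Gr m).Walk z y := Walk.cons adj_zc (Walk.cons h Walk.nil)
    refine ⟨⟨p⟩, ?_⟩
    have := SimpleGraph.dist_le p
    simpa [p] using this
  cases x with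
  | z => exact ⟨Reachable.refl _, by simp⟩
  | c i =>
    let p : (Gr m).Walk z (c i) := Walk.cons adj_zc Walk.nil
    refine ⟨⟨p⟩, ?_⟩
    have := SimpleGraph.dist_le p
    simp [p] at this
    omega
  | b i a => exact hc i _ (adj_cb (Or.inl rfl))
  | q i a => exact hc i _ adj_cq

lemma conn (m : ℕ) : (Gr m).Connected := by
  have : Nonempty (Vt m) := ⟨z⟩
  refine SimpleGraph.Connected.mk ?_
  intro x y
  exact (reach x).1.symm.trans (reach y).1

lemma W_adj {m : ℕ} [NeZero m] (t : ℕ) (ht : t < 4) : (Gr m).Adj (W m t) (W m (t + 1)) := by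
  interval_cases t
  · exact adj_cq.symm
  · exact adj_zc.symm
  · exact adj_zc
  · exact adj_cq

lemma ht_W {m : ℕ} [NeZero m] (hm : 5 ≤ m) (t : ℕ) (h : t ≤ 4) : ht m (W m t) = t := by
  classical
  have h21 : ((2 : ℕ) : ZMod m) ≠ ((1 : ℕ) : ZMod m) := cast_ne (by omega) (by omega) (by omega)
  interval_cases t
  · simp only [W, ht, if_true]; simp
  · simp only [W, ht, if_true]; simp
  · simp only [W, ht]; simp
  · simp only [W, ht, if_neg h21, if_true]; simp
  · simp only [W, ht, if_neg h21, if_true]; simp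

lemma W_dist_le {m : ℕ} [NeZero m] (s d : ℕ) (h : s + d ≤ 4) :
    (Gr m).dist (W m s) (W m (s + d)) ≤ d := by
  induction d with
  | zero => simp
  | succ d ih =>
    have h1 := ih (by omega)
    have h2 := (conn m).dist_triangle (u := W m s) (v := W m (s + d)) (w := W m (s + (d + 1)))
    have h3 : (Gr m).dist (W m (s + d)) (W m (s + (d + 1))) = 1 :=
      SimpleGraph.dist_eq_one_iff_adj.2 (W_adj (s + d) (by omega))
    omega

lemma W_dist {m : ℕ} [NeZero m] (hm : 5 ≤ m) (s d : ℕ) (h : s + d ≤ 4) :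
    (Gr m).dist (W m s) (W m (s + d)) = d := by
  refine le_antisymm (W_dist_le s d h) ?_
  obtain ⟨p, hp⟩ := (conn m).exists_walk_length_eq_dist (W m s) (W m (s + d))
  have h1 := ht_walk p
  rw [ht_W hm s (by omega), ht_W hm (s + d) h, hp] at h1
  push_cast at h1
  have h2 : |(s : ℤ) - (s + d)| = d := by
    rw [show (s : ℤ) - (s + d) = -(d : ℤ) by ring, abs_neg]
    exact abs_of_nonneg (by positivity)
  rw [h2] at h1
  exact_mod_cast h1

lemma dist_upper {m : ℕ} [NeZero m] (hm : 5 ≤ m) :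
    DirectorHolds (DistMove (Gr m)) (W m 0) 5 := by
  classical
  refine ⟨fun S u => (∀ y ∈ S, ∃ t ≤ 4, y = W m t) ∧ ∃ t ≤ 4, u = W m t, ?_, ?_⟩
  · refine ⟨?_, 0, by omega, rfl⟩
    intro y hy
    exact ⟨0, by omega, hy⟩
  · rintro S u ⟨hS, s, hs, rfl⟩
    refine ⟨?_, ?_⟩
    · have hsub : S ⊆ (((Finset.range 5).image (W m) : Finset (Vt m)) : Set (Vt m)) := by
        intro y hy
        obtain ⟨t, ht, rfl⟩ := hS y hy
        rw [Finset.mem_coe]
        exact Finset.mem_image_of_mem _ (Finset.mem_range.2 (by omega))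
      have h1 := Set.encard_le_encard hsub
      rw [Set.encard_coe_eq_coe_finsetCard] at h1
      refine h1.trans ?_
      have h2 : ((Finset.range 5).image (W m)).card ≤ 5 :=
        Finset.card_image_le.trans (by simp)
      exact_mod_cast h2
    · rintro l hl ⟨x, hx⟩
      change (Gr m).dist (W m s) x = l at hx
      have h1 := (conn m).dist_triangle (u := W m s) (v := W m 2) (w := x)
      have h2 : (Gr m).dist (W m 2) x ≤ 2 := (reach x).2
      have fin : ∀ t, t ≤ 4 → (Gr m).dist (W m s) (W m t) = l →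
          ∃ x, DistMove (Gr m) (W m s) l x ∧
            (∀ y ∈ insert x S, ∃ t ≤ 4, y = W m t) ∧ ∃ t ≤ 4, x = W m t := by
        intro t ht hd
        refine ⟨W m t, hd, ?_, t, ht, rfl⟩
        intro y hy
        rcases Set.mem_insert_iff.1 hy with rfl | hy
        · exact ⟨t, ht, rfl⟩
        · exact hS y hy
      by_cases h : 2 ≤ s
      · have h3 : (Gr m).dist (W m s) (W m 2) = s - 2 := by
          have := W_dist hm 2 (s - 2) (by omega)
          rw [SimpleGraph.dist_comm]
          rwa [show 2 + (s - 2) = s by omega] at this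
        refine fin (s - l) (by omega) ?_
        have := W_dist hm (s - l) l (by omega)
        rw [SimpleGraph.dist_comm]
        rwa [show s - l + l = s by omega] at this
      · have h3 : (Gr m).dist (W m s) (W m 2) = 2 - s := by
          have := W_dist hm s (2 - s) (by omega)
          rwa [show s + (2 - s) = 2 by omega] at this
        exact fin (s + l) (by omega) (W_dist hm s l (by omega))

/-- **Theorem.** The ratio `f_p / f_d` is unbounded. -/
theorem result : ∀ k : ℝ, ∃ (V : Type) (_ : Finite V) (G : SimpleGraph V) (v : V),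
    G.Connected ∧ (fp G v : ℝ) / (fd G v : ℝ) > k := by
  intro k
  obtain ⟨n, hn⟩ := exists_nat_gt (5 * k)
  let m := n + 5
  have : NeZero m := ⟨by omega⟩
  have hm : 5 ≤ m := by omega
  refine ⟨Vt m, finV m, Gr m, W m 0, conn m, ?_⟩
  have h1 : m - 1 ≤ fp (Gr m) (W m 0) :=
    path_lower hm ⟨_, rfl⟩ (holds_mem (PathMove (Gr m)) (W m 0))
  have h2 : fd (Gr m) (W m 0) ≤ 5 := Nat.sInf_le (dist_upper hm)
  have h3 : 1 ≤ fd (Gr m) (W m 0) := by
    obtain ⟨P, hP0, hP⟩ := holds_mem (DistMove (Gr m)) (W m 0)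
    have := (hP _ _ hP0).1
    rw [Set.encard_singleton] at this
    exact_mod_cast this
  have h1' : (n : ℝ) + 4 ≤ (fp (Gr m) (W m 0) : ℝ) := by
    have : n + 4 ≤ fp (Gr m) (W m 0) := by omega
    exact_mod_cast this
  have h2' : (fd (Gr m) (W m 0) : ℝ) ≤ 5 := by exact_mod_cast h2
  have h3' : (1 : ℝ) ≤ (fd (Gr m) (W m 0) : ℝ) := by exact_mod_cast h3
  rw [gt_iff_lt, lt_div_iff₀ (by linarith)]
  by_cases hk : 0 ≤ k
  · have : k * (fd (Gr m) (W m 0) : ℝ) ≤ k * 5 := mul_le_mul_of_nonneg_left h2' hk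
    linarith
  · push Not at hk
    have h4 : k * (fd (Gr m) (W m 0) : ℝ) ≤ 0 :=
      mul_nonpos_of_nonpos_of_nonneg hk.le (by linarith)
    have h5 : (0 : ℝ) ≤ n := Nat.cast_nonneg n
    linarith

end Pool.Agent.Results.MP_5904a2_co.RatioUnbounded
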